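import Pool.Agent.W426.LE.SG
set_option autoImplicit false
set_option linter.all false

namespace Pool.Agent.W575.LEKM
open Finset Pool.Agent.W426.LE
open scoped Classical

theorem prod_reindex {V O : Type} [Fintype V] (ρ : V ≃ Option O) (φ : Equiv.Perm V)
    (M : V → V → Option O) :
    ∏ v, sg ρ (fun w => M (φ v) (φ w)) =
      ((Equiv.Perm.sign φ : ℤˣ) : ℤ) ^ (Fintype.card V) * ∏ v, sg ρ (M v) := by
  have h : ∀ v, sg ρ (fun w => M (φ v) (φ w)) =
      ((Equiv.Perm.sign φ : ℤˣ) : ℤ) * sg ρ (M (φ v)) :=
    fun v => sg_comp_perm ρ (M (φ v)) φ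
  simp only [h]
  rw [Finset.prod_mul_distrib, Finset.prod_const, Finset.card_univ]
  congr 1
  exact Equiv.prod_comp φ (fun v => sg ρ (M v))

theorem unit_even_pow (u : ℤˣ) (n : ℕ) (hn : Even n) : ((u : ℤˣ) : ℤ) ^ n = 1 := by
  rcases Int.units_eq_one_or u with h | h
  · rw [h]; simp
  · rw [h]; simp [hn.neg_one_pow]

/-- conjugation of matrices by a permutation -/
def conjE {V O : Type} (φ : Equiv.Perm V) : (V → V → Option O) ≃ (V → V → Option O) where
  toFun M := fun u v => M (φ u) (φ v)
  invFun M := fun u v => M (φ.symm u) (φ.symm v)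
  left_inv := by intro M; funext u v; simp
  right_inv := by intro M; funext u v; simp

/-- scaling -/
def phi {p : ℕ} [Fact p.Prime] (a b : ZMod p) (ha : a ≠ 0) (hb : b ≠ 0) :
    Equiv.Perm (ZMod p × Bool) where
  toFun u := match u with
    | (y, false) => (a * y, false)
    | (y, true) => (b * y, true)
  invFun u := match u with
    | (y, false) => (a⁻¹ * y, false)
    | (y, true) => (b⁻¹ * y, true)
  left_inv := by
    rintro ⟨y, c⟩
    cases c
    · simp [← mul_assoc, inv_mul_cancel₀ ha]
    · simp [← mul_assoc, inv_mul_cancel₀ hb]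
  right_inv := by
    rintro ⟨y, c⟩
    cases c
    · simp [← mul_assoc, mul_inv_cancel₀ ha]
    · simp [← mul_assoc, mul_inv_cancel₀ hb]

theorem phi_tw {p : ℕ} [Fact p.Prime] (a b : ZMod p) (ha : a ≠ 0) (hb : b ≠ 0)
    (u : ZMod p × Bool) : phi a b ha hb (tw 1 1 u) = tw a b (phi a b ha hb u) := by
  rcases u with ⟨y, c⟩
  cases c
  · simp [phi, tw, mul_add]
  · simp [phi, tw, mul_add]

theorem scale : S_SCALE := by
  intro p _ hp F _ ρ a b j ha hb
  unfold FIX
  refine Finset.sum_equiv (conjE (phi a b ha hb)) ?_ ?_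
  · intro M
    simp only [Finset.mem_filter, Finset.mem_univ, true_and]
    constructor
    · rintro ⟨⟨h1, h2⟩, h3⟩
      refine ⟨⟨fun v => h1 _, fun u v => h2 _ _⟩, fun u v => ?_⟩
      show M (phi a b ha hb (tw 1 1 u)) (phi a b ha hb (tw 1 1 v)) =
        Option.map (sh j) (M (phi a b ha hb u) (phi a b ha hb v))
      rw [phi_tw, phi_tw, h3]
    · rintro ⟨⟨h1, h2⟩, h3⟩
      refine ⟨⟨fun v => ?_, fun u v => ?_⟩, fun u v => ?_⟩
      · have := h1 ((phi a b ha hb).symm v)
        simpa [conjE] using this
      · have := h2 ((phi a b ha hb).symm u) ((phi a b ha hb).symm v)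
        simpa [conjE] using this
      · have := h3 ((phi a b ha hb).symm u) ((phi a b ha hb).symm v)
        simp only [conjE, Equiv.coe_fn_mk, phi_tw, Equiv.apply_symm_apply] at this
        exact this
  · intro M _
    have h := prod_reindex ρ (phi a b ha hb) M
    rw [unit_even_pow _ _ (by simp [Fintype.card_prod, ZMod.card]), one_mul] at h
    exact h.symm

/-! ### the group action -/

section action
variable {p : ℕ} {F : Type}

theorem tw_tw (a b a' b' : ZMod p) (u : ZMod p × Bool) : tw a b (tw a' b' u) = tw (a + a') (b + b') u := by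
  rcases u with ⟨y, c⟩
  cases c
  · simp [tw]; ring
  · simp [tw]; ring

theorem tw_zero (u : ZMod p × Bool) : tw (0 : ZMod p) 0 u = u := by
  rcases u with ⟨y, c⟩
  cases c
  · simp [tw]
  · simp [tw]

def twP (a b : ZMod p) : Equiv.Perm (ZMod p × Bool) where
  toFun := tw a b
  invFun := tw (-a) (-b)
  left_inv := by intro u; rw [tw_tw]; simp [tw_zero]
  right_inv := by intro u; rw [tw_tw]; simp [tw_zero]

theorem twP_apply (a b : ZMod p) (u : ZMod p × Bool) : twP a b u = tw a b u := rfl

theorem twP_pow (a b : ZMod p) (n : ℕ) : (twP a b) ^ n = twP ((n : ZMod p) * a) ((n : ZMod p) * b) := by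
  induction n with
  | zero => ext1 u; simp [twP_apply, tw_zero]
  | succ n ih =>
    ext1 u
    rw [pow_succ', ih]
    simp only [Equiv.Perm.mul_apply, twP_apply, tw_tw]
    congr 1 <;> (push_cast; ring)

theorem prod_tw [Fact p.Prime] (hp : p ≠ 2) [Fintype F] (ρ : ZMod p × Bool ≃ Option (CC p F))
    (a b : ZMod p) (M : ZMod p × Bool → ZMod p × Bool → Option (CC p F)) :
    ∏ v, sg ρ (fun w => M (tw a b v) (tw a b w)) = ∏ v, sg ρ (M v) := by
  have h := prod_reindex ρ (twP a b) M
  rw [unit_even_pow _ _ (by simp [Fintype.card_prod, ZMod.card]), one_mul] at h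
  exact h

theorem sg_map [Fact p.Prime] (hp : p ≠ 2) [Fintype F] (ρ : ZMod p × Bool ≃ Option (CC p F))
    (j : ZMod p) (f : ZMod p × Bool → Option (CC p F)) :
    sg ρ (fun w => Option.map (sh j) (f w)) = sg ρ f := by
  have h := sg_perm_comp ρ f (Equiv.optionCongr (shP j))
  have hpow : ∀ n : ℕ, (Equiv.optionCongr (shP j : Equiv.Perm (CC p F)) : Equiv.Perm (Option (CC p F))) ^ n =
      Equiv.optionCongr (shP ((n : ZMod p) * j)) := by
    intro n
    induction n with
    | zero =>
      ext1 c
      rcases c with _ | c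
      · simp
      · simp [shP_apply]
    | succ n ih =>
      ext1 c
      rw [pow_succ', ih]
      rcases c with _ | c
      · simp
      · simp only [Equiv.Perm.mul_apply, Equiv.optionCongr_apply, Option.map_some, shP_apply, sh_add]
        congr 2; push_cast; ring
  have h2 : ∀ [DecidableEq (Option (CC p F))] [Fintype (Option (CC p F))],
      Equiv.Perm.sign (Equiv.optionCongr (shP j : Equiv.Perm (CC p F))) = 1 := by
    intro _ _
    apply sign_of_pow _ p ((Fact.out : p.Prime).odd_of_ne_two hp)
    rw [hpow]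
    ext1 c
    rcases c with _ | c
    · simp
    · simp [shP_apply]
  have h5 : (fun i => Option.map (sh j) (f i)) =
      fun i => (Equiv.optionCongr (shP j : Equiv.Perm (CC p F))) (f i) := rfl
  rw [h5, h]
  have h6 := congrArg (fun u : ℤˣ => (u : ℤ)) (@h2 (fun a b => Classical.propDecidable (a = b)) _)
  simp only [Units.val_one] at h6
  first
  | rw [h6, one_mul]
  | (convert one_mul _)

theorem map_sh_map (i j : ZMod p) (c : Option (CC p F)) :
    Option.map (sh i) (Option.map (sh j) c) = Option.map (sh (i + j)) c := by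
  rcases c with _ | c
  · rfl
  · simp [sh_add]

theorem map_sh_zero (c : Option (CC p F)) : Option.map (sh (0 : ZMod p)) c = c := by
  rcases c with _ | c
  · rfl
  · simp

/-- proper symmetric matrices -/
abbrev XX (p : ℕ) (F : Type) : Type :=
  {M : ZMod p × Bool → ZMod p × Bool → Option (CC p F) // SymM M ∧ ∀ v, Function.Bijective (M v)}

theorem ext' (M N : XX p F) (h : ∀ u v, M.1 u v = N.1 u v) : M = N :=
  Subtype.ext (funext fun u => funext fun v => h u v)

/-- the matrix obtained by moving the vertices and shifting the colours -/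
def mv (a b j : ZMod p) (M : XX p F) : XX p F :=
  ⟨fun u v => Option.map (sh j) (M.1 (tw a b u) (tw a b v)),
   ⟨fun v => by
      show Option.map (sh j) (M.1 (tw a b v) (tw a b v)) = none
      rw [M.2.1.1]; rfl, fun u v => by
      show Option.map (sh j) (M.1 (tw a b u) (tw a b v)) = Option.map (sh j) (M.1 (tw a b v) (tw a b u))
      rw [M.2.1.2]⟩, fun v => by
    have h1 : Function.Bijective (fun w => M.1 (tw a b v) (tw a b w)) :=
      (M.2.2 (tw a b v)).comp (twP a b).bijective
    exact (Equiv.optionCongr (shP j : Equiv.Perm (CC p F))).bijective.comp h1⟩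

theorem mv_mv (a b j a' b' j' : ZMod p) (M : XX p F) :
    mv a b j (mv a' b' j' M) = mv (a + a') (b + b') (j + j') M := by
  apply ext'
  intro u v
  simp only [mv, map_sh_map, tw_tw]
  rw [add_comm a' a, add_comm b' b]

theorem mv_zero (M : XX p F) : mv 0 0 0 M = M := by
  apply ext'
  intro u v
  simp only [mv, map_sh_zero, tw_zero]

theorem mv_eq_iff (a b j a' b' j' : ZMod p) (M : XX p F) :
    mv a' b' j' M = mv a b j M ↔
      ∀ u v, M.1 (tw (a' - a) (b' - b) u) (tw (a' - a) (b' - b) v) = Option.map (sh (j - j')) (M.1 u v) := by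
  constructor
  · intro h u v
    have h1 : mv (-a) (-b) (-j') (mv a' b' j' M) = mv (-a) (-b) (-j') (mv a b j M) := by rw [h]
    rw [mv_mv, mv_mv] at h1
    have h2 := congrFun (congrFun (congrArg Subtype.val h1) u) v
    simp only [mv, neg_add_cancel, map_sh_zero, tw_zero] at h2
    rw [show a' - a = -a + a' by ring, show b' - b = -b + b' by ring, show j - j' = -j' + j by ring]
    exact h2
  · intro h
    have h1 : mv (-a) (-b) (-j') (mv a' b' j' M) = mv (-a) (-b) (-j') (mv a b j M) := by
      rw [mv_mv, mv_mv]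
      apply ext'
      intro u v
      simp only [mv, neg_add_cancel, map_sh_zero, tw_zero]
      have := h u v
      rw [show a' - a = -a + a' by ring, show b' - b = -b + b' by ring, show j - j' = -j' + j by ring] at this
      exact this
    have h2 := congrArg (mv a b j') h1
    simpa [mv_mv, mv_zero] using h2

instance act : MulAction (Multiplicative (ZMod p × ZMod p)) (XX p F) where
  smul α M := mv (-(Multiplicative.toAdd α).1) 0 (Multiplicative.toAdd α).2 M
  one_smul M := by
    show mv (-(Multiplicative.toAdd (1 : Multiplicative (ZMod p × ZMod p))).1) 0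
      (Multiplicative.toAdd (1 : Multiplicative (ZMod p × ZMod p))).2 M = M
    simp [mv_zero]
  mul_smul α β M := by
    show mv (-(Multiplicative.toAdd (α * β)).1) 0 (Multiplicative.toAdd (α * β)).2 M =
      mv (-(Multiplicative.toAdd α).1) 0 (Multiplicative.toAdd α).2
        (mv (-(Multiplicative.toAdd β).1) 0 (Multiplicative.toAdd β).2 M)
    rw [mv_mv]
    simp only [toAdd_mul, Prod.fst_add, Prod.snd_add, add_zero]
    congr 1
    ring

theorem smul_def (α : Multiplicative (ZMod p × ZMod p)) (M : XX p F) :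
    α • M = mv (-(Multiplicative.toAdd α).1) 0 (Multiplicative.toAdd α).2 M := rfl

def gg (p : ℕ) (F : Type) : Equiv.Perm (XX p F) where
  toFun := mv 0 (-1) 0
  invFun := mv 0 1 0
  left_inv := by intro M; rw [mv_mv]; simp [mv_zero]
  right_inv := by intro M; rw [mv_mv]; simp [mv_zero]

theorem gg_apply (M : XX p F) : gg p F M = mv 0 (-1) 0 M := rfl

theorem gg_pow (n : ℕ) (M : XX p F) : ((gg p F) ^ n) M = mv 0 (-(n : ZMod p)) 0 M := by
  induction n with
  | zero => simp [mv_zero]
  | succ n ih =>
    rw [pow_succ', Equiv.Perm.mul_apply, ih, gg_apply, mv_mv]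
    congr 1 <;> (push_cast; ring)

end action

theorem main (hK : S_KEY) (hF : S_FREE) (hS : S_SCALE) : S_KM := by
  intro p _ hp F _ hcard ρ
  haveI : Finite (XX p F) := by unfold XX; infer_instance
  letI : Fintype (XX p F) := Fintype.ofFinite _
  set w : XX p F → ℤ := fun M => ∏ v, sg ρ (M.1 v) with hw
  have hwmv : ∀ (a b j : ZMod p) (M : XX p F), w (mv a b j M) = w M := by
    intro a b j M
    simp only [hw, mv]
    rw [← prod_tw hp ρ a b M.1]
    apply Finset.prod_congr rfl
    intro v _
    exact sg_map hp ρ j (fun w => M.1 (tw a b v) (tw a b w))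
  have hkey := hK (XX p F) (Multiplicative (ZMod p × ZMod p)) p 2 Fact.out
    (by rw [Fintype.card_multiplicative, Fintype.card_prod, ZMod.card]; ring)
    (by
      intro α M h
      rw [smul_def] at h
      have h0 : mv (0:ZMod p) 0 0 M = mv (-(Multiplicative.toAdd α).1) 0 (Multiplicative.toAdd α).2 M := by
        rw [mv_zero]; exact h.symm
      rw [mv_eq_iff] at h0
      have h1 := hF p hp F hcard M.1 _ _ _ M.2.1 h0 M.2.2 (Or.inr (Or.inl (by ring)))
      obtain ⟨h1, -, h3⟩ := h1
      apply Multiplicative.toAdd.injective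
      ext
      · simpa using h1
      · simpa using h3)
    (gg p F)
    (by
      intro α M
      rw [smul_def, smul_def, gg_apply, gg_apply, mv_mv, mv_mv]
      congr 1 <;> ring)
    ⟨1, by
      ext1 M
      rw [gg_pow]
      simp [mv_zero]⟩
    w (fun α M => by rw [smul_def]; exact hwmv _ _ _ _)
    (fun M => by rw [gg_apply]; exact hwmv _ _ _ _)
  have hNM : NM ρ = ∑ M : XX p F, w M := by
    unfold NM
    have h1 : ∑ M : XX p F, w M = ∑ M ∈ univ.filter (fun M : ZMod p × Bool → ZMod p × Bool → Option (CC p F) =>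
        SymM M ∧ ∀ v, Function.Bijective (M v)), ∏ v, sg ρ (M v) := by
      symm
      apply Finset.sum_subtype
      intro M
      simp
    rw [h1]
    symm
    apply Finset.sum_subset_zero_on_sdiff
    · intro M
      simp only [Finset.mem_filter, Finset.mem_univ, true_and]
      exact fun h => h.1
    · intro M hM
      simp only [Finset.mem_sdiff, Finset.mem_filter, Finset.mem_univ, true_and, not_and, not_forall] at hM
      obtain ⟨v, hv⟩ := hM.2 hM.1
      exact Finset.prod_eq_zero (Finset.mem_univ v) (sg_of_not ρ _ hv)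
    · intro M _
      rfl
  have hFIX : ∀ a b j : ZMod p, FIX ρ a b j = ∑ M ∈ univ.filter (fun M : XX p F =>
      ∀ u v, M.1 (tw a b u) (tw a b v) = Option.map (sh j) (M.1 u v)), w M := by
    intro a b j
    unfold FIX
    have h1 : ∑ M ∈ univ.filter (fun M : XX p F =>
        ∀ u v, M.1 (tw a b u) (tw a b v) = Option.map (sh j) (M.1 u v)), w M =
        ∑ M ∈ univ.filter (fun M : ZMod p × Bool → ZMod p × Bool → Option (CC p F) =>
          (SymM M ∧ ∀ u v, M (tw a b u) (tw a b v) = Option.map (sh j) (M u v)) ∧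
            ∀ v, Function.Bijective (M v)), ∏ v, sg ρ (M v) := by
      refine Finset.sum_bij (fun M _ => M.1) ?_ ?_ ?_ ?_
      · intro M hM
        simp only [Finset.mem_filter, Finset.mem_univ, true_and] at hM ⊢
        exact ⟨⟨M.2.1, hM⟩, M.2.2⟩
      · intro M _ N _ h
        exact Subtype.ext h
      · intro M hM
        simp only [Finset.mem_filter, Finset.mem_univ, true_and] at hM
        refine ⟨⟨M, hM.1.1, hM.2⟩, ?_, rfl⟩
        simp only [Finset.mem_filter, Finset.mem_univ, true_and]
        exact hM.1.2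
      · intro M _
        rfl
    rw [h1]
    symm
    apply Finset.sum_subset_zero_on_sdiff
    · intro M
      simp only [Finset.mem_filter, Finset.mem_univ, true_and]
      exact fun h => h.1
    · intro M hM
      simp only [Finset.mem_sdiff, Finset.mem_filter, Finset.mem_univ, true_and, not_and, not_forall] at hM
      obtain ⟨v, hv⟩ := hM.2 hM.1
      exact Finset.prod_eq_zero (Finset.mem_univ v) (sg_of_not ρ _ hv)
    · intro M _
      rfl
  have hα : ∀ α : Multiplicative (ZMod p × ZMod p),
      ∑ x ∈ univ.filter (fun x => gg p F x = α • x), w x =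
        FIX ρ (Multiplicative.toAdd α).1 (-1) (Multiplicative.toAdd α).2 := by
    intro α
    rw [hFIX]
    apply Finset.sum_congr _ (fun _ _ => rfl)
    ext M
    simp only [Finset.mem_filter, Finset.mem_univ, true_and]
    rw [gg_apply, smul_def, mv_eq_iff]
    simp
  have hzero : ∀ a j : ZMod p, (a = 0 ∨ j = 0) → FIX ρ a (-1) j = 0 := by
    intro a j haj
    rw [hFIX]
    apply Finset.sum_eq_zero
    intro M hM
    simp only [Finset.mem_filter, Finset.mem_univ, true_and] at hM
    exfalso
    have := hF p hp F hcard M.1 a (-1) j M.2.1 hM M.2.2 (by tauto)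
    have h1 := this.2.1
    exact one_ne_zero (neg_eq_zero.mp h1)
  have hsum : ∑ α : Multiplicative (ZMod p × ZMod p),
      ∑ x ∈ univ.filter (fun x => gg p F x = α • x), w x =
        (p - 1) * ∑ j ∈ univ.filter (fun j : ZMod p => j ≠ 0), FIX ρ 1 1 j := by
    rw [Finset.sum_congr rfl (fun α _ => hα α)]
    have h1 : ∑ α : Multiplicative (ZMod p × ZMod p),
        FIX ρ (Multiplicative.toAdd α).1 (-1) (Multiplicative.toAdd α).2 =
        ∑ q : ZMod p × ZMod p, FIX ρ q.1 (-1) q.2 :=
      Fintype.sum_equiv Multiplicative.toAdd _ _ (fun _ => rfl)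
    rw [h1, Fintype.sum_prod_type]
    have h2 : ∀ a : ZMod p, ∑ j : ZMod p, FIX ρ a (-1) j =
        if a = 0 then 0 else ∑ j ∈ univ.filter (fun j : ZMod p => j ≠ 0), FIX ρ 1 1 j := by
      intro a
      by_cases ha : a = 0
      · rw [if_pos ha]
        exact Finset.sum_eq_zero (fun j _ => hzero a j (Or.inl ha))
      · rw [if_neg ha, Finset.sum_filter]
        apply Finset.sum_congr rfl
        intro j _
        by_cases hj : j = 0
        · rw [if_neg (by simpa using hj), hzero a j (Or.inr hj)]
        · rw [if_pos hj]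
          exact hS p hp F ρ a (-1) j ha (by simp)
    rw [Finset.sum_congr rfl (fun a _ => h2 a)]
    set S := ∑ j ∈ univ.filter (fun j : ZMod p => j ≠ 0), FIX ρ 1 1 j with hSdef
    have h3 : ∀ a : ZMod p, (if a = 0 then (0 : ℤ) else S) = S - (if a = 0 then S else 0) := by
      intro a
      by_cases ha : a = 0
      · simp [ha]
      · simp [ha]
    rw [Finset.sum_congr rfl (fun a _ => h3 a), Finset.sum_sub_distrib, Finset.sum_const, Finset.card_univ,
      ZMod.card, Finset.sum_ite_eq' univ (0 : ZMod p) (fun _ => S)]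
    simp
    ring
  rw [hNM, ← hsum]
  exact hkey

end Pool.Agent.W575.LEKM
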